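import Pool.Agent.H629.CG.Stm

/-!
# Cameron-Martin for the standard Gaussian measure
-/

set_option autoImplicit false

namespace Pool.Agent.H100.CG.CM

open Pool.Agent.H629.CG
open MeasureTheory ProbabilityTheory Filter Topology Set
open scoped ENNReal NNReal

theorem meas_ex (a : ℝ) : Measurable fun x : ℝ => ex (a * x - a ^ 2 / 2) := by
  unfold ex
  exact ENNReal.measurable_ofReal.comp (Real.measurable_exp.comp (by fun_prop))

/-- dimension one -/
theorem one_dim (a : ℝ) (s : Set ℝ) (hs : MeasurableSet s) :
    ∫⁻ x in s, ex (a * x - a ^ 2 / 2) ∂gaussianReal 0 1 = gaussianReal a 1 s := by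
  rw [gaussianReal_apply a one_ne_zero s, gaussianReal_of_var_ne_zero 0 one_ne_zero,
    setLIntegral_withDensity_eq_setLIntegral_mul _ (measurable_gaussianPDF 0 1) (meas_ex a) hs]
  refine setLIntegral_congr_fun hs fun x _ => ?_
  show gaussianPDF 0 1 x * ex (a * x - a ^ 2 / 2) = gaussianPDF a 1 x
  unfold gaussianPDF ex
  rw [← ENNReal.ofReal_mul (gaussianPDFReal_nonneg _ _ _)]
  congr 1
  unfold gaussianPDFReal
  rw [mul_assoc, ← Real.exp_add]
  congr 2
  push_cast
  ring

theorem n_dim (N : ℕ) (a : Fin N → ℝ) :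
    (gam N).withDensity (fun z => ex (∑ k, a k * z k - (∑ k, a k ^ 2) / 2)) =
      (gam N).map (fun z => z + a) := by
  have h1 : (gam N).map (fun z => z + a) = Measure.pi fun k => gaussianReal (a k) 1 := by
    have h2 := Measure.pi_map_pi (μ := fun _ : Fin N => gaussianReal 0 1)
      (f := fun (k : Fin N) (x : ℝ) => x + a k) (fun k => (measurable_id.add_const _).aemeasurable)
    have h3 : (fun k : Fin N => (gaussianReal 0 1).map (fun x => x + a k)) =
        fun k => gaussianReal (a k) 1 := by
      funext k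
      rw [gaussianReal_map_add_const, zero_add]
    rw [h3] at h2
    exact h2
  rw [h1]
  symm
  refine Measure.pi_eq fun s hs => ?_
  rw [withDensity_apply _ (MeasurableSet.univ_pi hs),
    ← lintegral_indicator (MeasurableSet.univ_pi hs)]
  have hm : ∀ k, Measurable ((s k).indicator (fun x => ex (a k * x - a k ^ 2 / 2))) :=
    fun k => (meas_ex (a k)).indicator (hs k)
  have h2 : ∀ z : Fin N → ℝ, (univ.pi s).indicator
      (fun z => ex (∑ k, a k * z k - (∑ k, a k ^ 2) / 2)) z =
      ∏ k, (s k).indicator (fun x => ex (a k * x - a k ^ 2 / 2)) (z k) := by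
    intro z
    by_cases hz : z ∈ univ.pi s
    · rw [indicator_of_mem hz]
      have h3 : ∀ k, (s k).indicator (fun x => ex (a k * x - a k ^ 2 / 2)) (z k) =
          ENNReal.ofReal (Real.exp (a k * z k - a k ^ 2 / 2)) := by
        intro k
        rw [indicator_of_mem (hz k (mem_univ k))]
        rfl
      rw [Finset.prod_congr rfl fun k _ => h3 k,
        ← ENNReal.ofReal_prod_of_nonneg (fun k _ => (Real.exp_pos _).le), ← Real.exp_sum,
        Finset.sum_sub_distrib, Finset.sum_div]
      rfl
    · rw [indicator_of_notMem hz]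
      obtain ⟨k, hk⟩ : ∃ k, z k ∉ s k := by
        by_contra hno
        push Not at hno
        exact hz fun k _ => hno k
      symm
      refine Finset.prod_eq_zero (Finset.mem_univ k) ?_
      exact indicator_of_notMem hk _
  simp_rw [h2]
  unfold gam
  rw [lintegral_prod_eq_prod_lintegral_of_indepFun Finset.univ
    (fun k (z : Fin N → ℝ) => (s k).indicator (fun x => ex (a k * x - a k ^ 2 / 2)) (z k))
    (iIndepFun_pi (fun k => (hm k).aemeasurable)) (fun k => (hm k).comp (measurable_pi_apply k))]
  refine Finset.prod_congr rfl fun k _ => ?_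
  rw [(measurePreserving_eval (fun _ : Fin N => gaussianReal 0 1) k).lintegral_comp (hm k),
    lintegral_indicator (hs k), one_dim _ _ (hs k)]

theorem t_CM : S_CM := by
  intro N a g hg
  have hD : Measurable fun z : Fin N → ℝ => ex (∑ k, a k * z k - (∑ k, a k ^ 2) / 2) := by
    unfold ex
    exact ENNReal.measurable_ofReal.comp (Real.measurable_exp.comp (by fun_prop))
  have h1 := lintegral_withDensity_eq_lintegral_mul (gam N) hD hg
  have h2 : ∫⁻ z, ex (∑ k, a k * z k - (∑ k, a k ^ 2) / 2) * g z ∂gam N =
      ∫⁻ z, g z ∂((gam N).withDensity fun z => ex (∑ k, a k * z k - (∑ k, a k ^ 2) / 2)) := by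
    rw [h1]
    rfl
  have h3 : Measurable fun z : Fin N → ℝ => z + a := measurable_id.add_const a
  rw [h2, n_dim]
  exact lintegral_map hg h3

end Pool.Agent.H100.CG.CM
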